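import Mathlib
import Pool.Agent.H621R3.LFDefs
import Pool.Agent.H621R3.LFNet
import Pool.Agent.H621R3.LFExist

set_option autoImplicit false

/-!
Problem MP_777e28_an, Q1, full positive answer: for every real normed space `X` (in particular
every Banach space), every net `N` in `X`, every choice of the base point and every `0 < p ≤ 1`,
the Lipschitz free `p`-space `F_p(N)` is linearly isomorphic to `ℓ_p(F_p(N))`.

The definitions (`PBanach`, `IsLipFree`, `EllP`, `IsNet`) are in `Pool.Agent.H621R3.LFDefs`. A
`p`-Banach space is encoded with norm `‖y‖ = |||y|||^p`, the `p`-th power of its `p`-norm.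

The first part of the theorem says that Lipschitz free `p`-spaces exist over every pointed metric
space, so that the second part is not void.
-/

namespace Pool.Agent.Results.MP_777e28_an.NetIso

open Pool.Agent.H621R3.LF

universe u

theorem result :
    (∀ p : ℝ, 0 < p → p ≤ 1 → ∀ (M : Type u) [MetricSpace M] (base : M),
      ∃ (F : Type u) (_ : NormedAddCommGroup F) (_ : Module ℝ F) (_ : PBanach p F) (δ : M → F),
        IsLipFree p base δ) ∧
    ∀ (X : Type u) [NormedAddCommGroup X] [NormedSpace ℝ X] (N : Set X), IsNet N →
      ∀ p : ℝ, 0 < p → p ≤ 1 →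
        ∀ (x0 : N) (F : Type u) [NormedAddCommGroup F] [Module ℝ F] [PBanach p F] (δ : N → F),
          IsLipFree p x0 δ → Nonempty (F ≃L[ℝ] EllP p F) := by
  refine ⟨fun p hp hp1 M _ base => exists_lipFree hp hp1 base, ?_⟩
  intro X _ _ N hN p hp _ x0 F _ _ _ δ h
  exact net_iso hN x0 hp δ h

end Pool.Agent.Results.MP_777e28_an.NetIso
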